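import Pool.Agent.N949.PG.Def

/-!
Self-avoiding polygons are Jordan curves.
-/

set_option autoImplicit false

namespace Pool.Agent.N196.PG

open Pool.Agent.N941.SP Pool.Agent.N949.PG

/-- the edges of a loop are unit vectors -/
theorem loop_un {m : ℕ} {f : ZMod m → ℤ × ℤ} (h : IsLoop m f) (i : ZMod m) :
    Un (f (i + 1) - f i) := h.2.2 i

/-- the midpoints of the edges of a loop are different -/
theorem loop_mid {m : ℕ} (hm : 3 ≤ m) {f : ZMod m → ℤ × ℤ} (h : IsLoop m f) {i j : ZMod m}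
    (hij : f i + f (i + 1) = f j + f (j + 1)) : i = j := by
  have h1 := loop_un h i
  have h2 := loop_un h j
  have h3 : f i + (f i + (f (i + 1) - f i)) = f j + (f j + (f (j + 1) - f j)) := by
    rw [add_sub_cancel, add_sub_cancel]; exact hij
  rcases edge_eq h1 h2 h3 with h4 | ⟨h4, h5⟩
  · exact h.2.1 h4
  · rw [add_sub_cancel] at h4 h5
    have h6 := h.2.1 h4
    have h7 := h.2.1 h5
    exfalso
    rw [h6] at h7
    have h8 : ((2 : ℕ) : ZMod m) = 0 := by
      have h9 : i + ((2 : ℕ) : ZMod m) = i + 0 := by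
        push_cast
        calc i + 2 = i + 1 + 1 := by ring
          _ = i := h7.symm
          _ = i + 0 := (add_zero i).symm
      exact add_left_cancel h9
    rw [ZMod.natCast_eq_zero_iff] at h8
    have := Nat.le_of_dvd (by norm_num) h8
    omega

/-- two points on edges with different midpoints are equal only if both are vertices -/
theorem vertex_of_eq {a b e e' : ℤ × ℤ} (hun : Un e) (hun' : Un e')
    (hmid : a + (a + e) ≠ b + (b + e')) {θ θ' : ℝ} (hθ0 : 0 ≤ θ) (hθ1 : θ ≤ 1) (hθ0' : 0 ≤ θ')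
    (hθ1' : θ' ≤ 1)
    (h : pt a + (θ : ℂ) * pt e = pt b + (θ' : ℂ) * pt e') :
    (θ = 0 ∨ θ = 1) ∧ (θ' = 0 ∨ θ' = 1) := by
  have r1 := congrArg Complex.re h
  have r2 := congrArg Complex.im h
  rw [Complex.add_re, Complex.add_re, Complex.re_ofReal_mul, Complex.re_ofReal_mul, pt_re, pt_re,
    pt_re, pt_re] at r1
  rw [Complex.add_im, Complex.add_im, Complex.im_ofReal_mul, Complex.im_ofReal_mul, pt_im, pt_im,
    pt_im, pt_im] at r2
  obtain ⟨a1, a2⟩ := a
  obtain ⟨b1, b2⟩ := b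
  obtain ⟨D1, hD1⟩ : ∃ D1, D1 = 2 * a1 + e.1 - (2 * b1 + e'.1) := ⟨_, rfl⟩
  obtain ⟨D2, hD2⟩ : ∃ D2, D2 = 2 * a2 + e.2 - (2 * b2 + e'.2) := ⟨_, rfl⟩
  have p1 := un_parity hun
  have p2 := un_parity hun'
  have hD : 2 ≤ |D1| + |D2| := by
    by_contra hc
    have m5 : D1 = 0 ∧ D2 = 0 := by
      rcases abs_cases D1 with a1 | a1 <;> rcases abs_cases D2 with a2 | a2 <;> omega
    apply hmid
    ext
    · simp only [Prod.fst_add]; omega
    · simp only [Prod.snd_add]; omega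
  have hDr : (2 : ℝ) ≤ |(D1 : ℝ)| + |(D2 : ℝ)| := by exact_mod_cast hD
  have k1 : (D1 : ℝ) = (2 * θ' - 1) * e'.1 - (2 * θ - 1) * e.1 := by
    rw [hD1]; push_cast; simp only at r1; linarith
  have k2 : (D2 : ℝ) = (2 * θ' - 1) * e'.2 - (2 * θ - 1) * e.2 := by
    rw [hD2]; push_cast; simp only at r2; linarith
  have hun1 : |(e.1 : ℝ)| + |(e.2 : ℝ)| = 1 := by exact_mod_cast hun
  have hun2 : |(e'.1 : ℝ)| + |(e'.2 : ℝ)| = 1 := by exact_mod_cast hun'
  have n1 : |(D1 : ℝ)| ≤ |2 * θ' - 1| * |(e'.1 : ℝ)| + |2 * θ - 1| * |(e.1 : ℝ)| := by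
    rw [k1, ← abs_mul, ← abs_mul]
    exact abs_sub _ _
  have n2 : |(D2 : ℝ)| ≤ |2 * θ' - 1| * |(e'.2 : ℝ)| + |2 * θ - 1| * |(e.2 : ℝ)| := by
    rw [k2, ← abs_mul, ← abs_mul]
    exact abs_sub _ _
  have n3 : 2 ≤ |2 * θ' - 1| + |2 * θ - 1| := by
    calc (2 : ℝ) ≤ |(D1 : ℝ)| + |(D2 : ℝ)| := hDr
      _ ≤ |2 * θ' - 1| * (|(e'.1 : ℝ)| + |(e'.2 : ℝ)|) +
          |2 * θ - 1| * (|(e.1 : ℝ)| + |(e.2 : ℝ)|) := by linarith
      _ = _ := by rw [hun1, hun2]; ring
  rcases abs_cases (2 * θ' - 1) with h2 | h2 <;> rcases abs_cases (2 * θ - 1) with h3 | h3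
  · exact ⟨Or.inr (by linarith), Or.inr (by linarith)⟩
  · exact ⟨Or.inl (by linarith), Or.inr (by linarith)⟩
  · exact ⟨Or.inr (by linarith), Or.inl (by linarith)⟩
  · exact ⟨Or.inl (by linarith), Or.inl (by linarith)⟩

theorem pt_inj {a b : ℤ × ℤ} (h : pt a = pt b) : a = b := by
  have r1 := congrArg Complex.re h
  have r2 := congrArg Complex.im h
  rw [pt_re, pt_re] at r1
  rw [pt_im, pt_im] at r2
  exact Prod.ext (by exact_mod_cast r1) (by exact_mod_cast r2)

/-- the value of the curve -/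
theorem curve_eq {m : ℕ} {f : ZMod m → ℤ × ℤ} (h0 : f 0 = 0) (_ : 1 ≤ m) (t : unitInterval)
    {k : ℕ} (hk : k < m) (h1 : (k : ℝ) ≤ m * (t : ℝ)) (h2 : (m : ℝ) * t ≤ k + 1) :
    curve m f t = pt (f (k : ZMod m)) + ((m * (t : ℝ) - k : ℝ) : ℂ) *
      (pt (f ((k + 1 : ℕ) : ZMod m)) - pt (f (k : ZMod m))) := by
  have e : curve m f t = ∑ j ∈ Finset.range m, ((cl ((m : ℝ) * t - j) : ℝ) : ℂ) *
      (pt (f ((j + 1 : ℕ) : ZMod m)) - pt (f (j : ZMod m))) := rfl
  rw [e, interp (fun j => pt (f (j : ZMod m))) h1 h2 hk]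
  have h3 : pt (f ((0 : ℕ) : ZMod m)) = 0 := by
    rw [Nat.cast_zero, h0]
    simp [pt]
  rw [h3, sub_zero]

theorem curve_inj {m : ℕ} (hm : 3 ≤ m) {f : ZMod m → ℤ × ℤ} (h : IsLoop m f) {s t : unitInterval}
    (hs : s ≠ 1) (ht : t ≠ 1) (hst : curve m f s = curve m f t) : s = t := by
  have hmr : (0 : ℝ) < m := by exact_mod_cast (by omega : 0 < m)
  have block : ∀ t : unitInterval, t ≠ 1 → ∃ k : ℕ, k < m ∧ (k : ℝ) ≤ m * t ∧
      (m : ℝ) * t < k + 1 := by
    intro t ht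
    have ht0 := t.2.1
    have ht1 : (t : ℝ) < 1 := lt_of_le_of_ne t.2.2 (fun hc => ht (Subtype.ext hc))
    have h0 : 0 ≤ (m : ℝ) * t := by positivity
    refine ⟨⌊(m : ℝ) * t⌋₊, ?_, Nat.floor_le h0, Nat.lt_floor_add_one _⟩
    rw [Nat.floor_lt h0]
    nlinarith
  obtain ⟨k, hk, h1, h2⟩ := block s hs
  obtain ⟨k', hk', h1', h2'⟩ := block t ht
  rw [curve_eq h.1 (by omega) s hk h1 h2.le, curve_eq h.1 (by omega) t hk' h1' h2'.le,
    ← pt_sub, ← pt_sub, Nat.cast_succ, Nat.cast_succ] at hst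
  have hun := loop_un h (k : ZMod m)
  have hun' := loop_un h (k' : ZMod m)
  have hcast : (k : ZMod m) = k' → k = k' := by
    intro hc
    rw [ZMod.natCast_eq_natCast_iff'] at hc
    rwa [Nat.mod_eq_of_lt hk, Nat.mod_eq_of_lt hk'] at hc
  obtain ⟨θ, hθ⟩ : ∃ θ, θ = (m : ℝ) * s - k := ⟨_, rfl⟩
  obtain ⟨θ', hθ'⟩ : ∃ θ', θ' = (m : ℝ) * t - k' := ⟨_, rfl⟩
  rw [← hθ, ← hθ'] at hst
  have key : k = k' ∧ θ = θ' := by
    by_cases hkk : k = k'
    · subst hkk
      refine ⟨rfl, ?_⟩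
      have h3 := add_left_cancel hst
      have h4 : pt (f ((k : ZMod m) + 1) - f (k : ZMod m)) ≠ 0 := by
        intro hc
        have h5 : f ((k : ZMod m) + 1) - f (k : ZMod m) = 0 := by
          apply pt_inj
          rw [hc]
          simp [pt]
        rw [h5] at hun
        unfold Un at hun
        simp at hun
      exact_mod_cast mul_right_cancel₀ h4 h3
    · have hmid : f (k : ZMod m) + (f (k : ZMod m) + (f ((k : ZMod m) + 1) - f (k : ZMod m))) ≠
          f (k' : ZMod m) + (f (k' : ZMod m) + (f ((k' : ZMod m) + 1) - f (k' : ZMod m))) := by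
        rw [add_sub_cancel, add_sub_cancel]
        exact fun hc => hkk (hcast (loop_mid hm h hc))
      obtain ⟨c1, c2⟩ := vertex_of_eq hun hun' hmid (by linarith) (by linarith) (by linarith)
        (by linarith) hst
      have c3 : θ = 0 := by
        rcases c1 with c1 | c1
        · exact c1
        · linarith
      have c4 : θ' = 0 := by
        rcases c2 with c2 | c2
        · exact c2
        · linarith
      rw [c3, c4, Complex.ofReal_zero, zero_mul, zero_mul, add_zero, add_zero] at hst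
      exact absurd (hcast (h.2.1 (pt_inj hst))) hkk
  obtain ⟨e1, e2⟩ := key
  subst e1
  rw [hθ, hθ'] at e2
  have e3 : (m : ℝ) * s = m * t := by linarith
  exact Subtype.ext (mul_left_cancel₀ hmr.ne' e3)

theorem curve_zero {m : ℕ} (hm : 3 ≤ m) {f : ZMod m → ℤ × ℤ} (h : IsLoop m f) :
    curve m f 0 = 0 := by
  rw [curve_eq h.1 (by omega) 0 (k := 0) (by omega) (by simp) (by simp), Nat.cast_zero, h.1]
  simp [pt]

theorem curve_one {m : ℕ} (hm : 3 ≤ m) {f : ZMod m → ℤ × ℤ} (h : IsLoop m f) :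
    curve m f 1 = 0 := by
  have e : ((m - 1 : ℕ) : ℝ) = (m : ℝ) - 1 := by
    rw [Nat.cast_sub (by omega)]
    simp
  have h1 : (((1 : unitInterval) : ℝ)) = 1 := rfl
  rw [curve_eq h.1 (by omega) 1 (k := m - 1) (by omega) (by rw [e, h1]; linarith)
    (by rw [e, h1]; linarith), e, h1, Nat.sub_add_cancel (by omega)]
  have h2 : f ((m : ℕ) : ZMod m) = 0 := by
    rw [ZMod.natCast_self, h.1]
  have h3 : pt (0 : ℤ × ℤ) = 0 := by simp [pt]
  rw [h2, h3]
  push_cast
  ring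

open Pointwise in
theorem t_JOR : S_JOR := by
  intro m f hm h
  have hb : Bornology.IsBounded (Set.range (curve m f)) :=
    (isCompact_range (curve m f).continuous).isBounded
  have hD : 0 < Metric.diam (Set.range (curve m f)) := by
    obtain ⟨z, hz⟩ : ∃ z : unitInterval, (z : ℝ) = 1 / 2 := ⟨⟨1 / 2, by norm_num, by norm_num⟩, rfl⟩
    have h1 : curve m f 0 ≠ curve m f z := by
      intro hc
      have h2 : (0 : unitInterval) ≠ 1 := zero_ne_one
      have h3 : z ≠ 1 := by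
        intro h4
        rw [h4] at hz
        have h5 : (((1 : unitInterval) : ℝ)) = 1 := rfl
        rw [h5] at hz
        norm_num at hz
      have h4 := curve_inj hm h h2 h3 hc
      rw [← h4] at hz
      have h5 : (((0 : unitInterval) : ℝ)) = 0 := rfl
      rw [h5] at hz
      norm_num at hz
    have h2 := Metric.dist_le_diam_of_mem hb ⟨0, rfl⟩ ⟨z, rfl⟩
    exact lt_of_lt_of_le (dist_pos.2 h1) h2
  refine ⟨?_, ?_, ?_, ?_⟩
  · unfold Y
    rw [ContinuousMap.smul_apply, curve_zero hm h, smul_zero]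
  · unfold Y
    rw [ContinuousMap.smul_apply, curve_one hm h, smul_zero]
  · intro s t hs ht hst
    apply curve_inj hm h hs ht
    unfold Y at hst
    simp only [ContinuousMap.smul_apply] at hst
    exact smul_right_injective ℂ (inv_ne_zero hD.ne') hst
  · have e : Set.range (Y m f) =
        (Metric.diam (Set.range (curve m f)))⁻¹ • Set.range (curve m f) := by
      unfold Y
      ext z
      constructor
      · rintro ⟨t, rfl⟩
        exact ⟨_, ⟨t, rfl⟩, rfl⟩
      · rintro ⟨_, ⟨t, rfl⟩, rfl⟩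
        exact ⟨t, rfl⟩
    rw [e, diam_smul₀, norm_inv, Real.norm_eq_abs, abs_of_pos hD, inv_mul_cancel₀ hD.ne']

end Pool.Agent.N196.PG
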